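import Pool.Agent.H48.DL.Ord
import Pool.Agent.H29.EX.Targets

/-!
# Families of Dirichlet `L`-functions with two dilations (DIR)
-/

set_option autoImplicit false

open Complex MeasureTheory Set Filter Topology

namespace Pool.Agent.H90.EX

open Pool.Agent.H25.DL Pool.Agent.H25.DP Pool.Agent.H29.EX Pool.Agent.H23.GLH

section

variable {n m : ℕ}

/-- the indices of dilation `r` -/
abbrev SI (α : Fin n → ℝ) (β : Fin m → ℝ) (r : ℝ) : Type := {i // α i = r} ⊕ {j // β j = r}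

/-- the characters -/
def chi (ψ : Fin n → PrimChar) (χ : Fin m → PrimChar) (α : Fin n → ℝ) (β : Fin m → ℝ) (r : ℝ) :
    SI α β r → PrimChar := Sum.elim (fun i => ψ i.1) fun j => χ j.1

/-- the shifts -/
def tt (τ : Fin n → ℝ) (σ : Fin m → ℝ) (α : Fin n → ℝ) (β : Fin m → ℝ) (r : ℝ) :
    SI α β r → ℝ := Sum.elim (fun i => τ i.1) fun j => σ j.1

/-- the signs -/
def sg (α : Fin n → ℝ) (β : Fin m → ℝ) (r : ℝ) :
    SI α β r → ℤ := Sum.elim (fun _ => 1) fun _ => -1

open Classical in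
lemma class_ne (ψ : Fin n → PrimChar) (χ : Fin m → PrimChar) (τ : Fin n → ℝ) (σ : Fin m → ℝ)
    (α : Fin n → ℝ) (β : Fin m → ℝ) (r : ℝ)
    (h : ∀ i j, ¬(ψ i = χ j ∧ α i = β j ∧ τ i = σ j)) (s : SI α β r) :
    ∑ u : SI α β r, (if chi ψ χ α β r s = chi ψ χ α β r u ∧ tt τ σ α β r s = tt τ σ α β r u
      then sg α β r u else 0) ≠ 0 := by
  rw [Fintype.sum_sum_type]
  rcases s with s | s
  · have h1 : ∑ u : {j // β j = r}, (if chi ψ χ α β r (Sum.inl s) = chi ψ χ α β r (Sum.inr u) ∧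
        tt τ σ α β r (Sum.inl s) = tt τ σ α β r (Sum.inr u) then sg α β r (Sum.inr u) else 0) = 0 := by
      refine Finset.sum_eq_zero fun u _ => if_neg ?_
      rintro ⟨h2, h3⟩
      exact h s.1 u.1 ⟨h2, s.2.trans u.2.symm, h3⟩
    have h4 : (1 : ℤ) ≤ ∑ u : {i // α i = r},
        (if chi ψ χ α β r (Sum.inl s) = chi ψ χ α β r (Sum.inl u) ∧
        tt τ σ α β r (Sum.inl s) = tt τ σ α β r (Sum.inl u) then sg α β r (Sum.inl u) else 0) := by
      refine le_trans (le_of_eq ?_) (Finset.single_le_sum (f := fun u : {i // α i = r} =>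
        (if chi ψ χ α β r (Sum.inl s) = chi ψ χ α β r (Sum.inl u) ∧
        tt τ σ α β r (Sum.inl s) = tt τ σ α β r (Sum.inl u) then sg α β r (Sum.inl u) else 0))
        (fun u _ => ?_) (Finset.mem_univ s))
      · simp [sg]
      · simp only [sg, Sum.elim_inl]
        split_ifs <;> norm_num
    rw [h1, add_zero]
    omega
  · have h1 : ∑ u : {i // α i = r}, (if chi ψ χ α β r (Sum.inr s) = chi ψ χ α β r (Sum.inl u) ∧
        tt τ σ α β r (Sum.inr s) = tt τ σ α β r (Sum.inl u) then sg α β r (Sum.inl u) else 0) = 0 := by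
      refine Finset.sum_eq_zero fun u _ => if_neg ?_
      rintro ⟨h2, h3⟩
      exact h u.1 s.1 ⟨h2.symm, u.2.trans s.2.symm, h3.symm⟩
    have h4 : (1 : ℤ) ≤ ∑ u : {j // β j = r},
        -(if chi ψ χ α β r (Sum.inr s) = chi ψ χ α β r (Sum.inr u) ∧
        tt τ σ α β r (Sum.inr s) = tt τ σ α β r (Sum.inr u) then sg α β r (Sum.inr u) else 0) := by
      refine le_trans (le_of_eq ?_) (Finset.single_le_sum (f := fun u : {j // β j = r} =>
        -(if chi ψ χ α β r (Sum.inr s) = chi ψ χ α β r (Sum.inr u) ∧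
        tt τ σ α β r (Sum.inr s) = tt τ σ α β r (Sum.inr u) then sg α β r (Sum.inr u) else 0))
        (fun u _ => ?_) (Finset.mem_univ s))
      · simp [sg]
      · simp only [sg, Sum.elim_inr]
        split_ifs <;> norm_num
    rw [h1, zero_add]
    rw [Finset.sum_neg_distrib] at h4
    omega

/-- the density condition -/
lemma sum_class (ψ : Fin n → PrimChar) (χ : Fin m → PrimChar) (τ : Fin n → ℝ) (σ : Fin m → ℝ)
    (α : Fin n → ℝ) (β : Fin m → ℝ) (r : ℝ) (p : ℕ) :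
    ∑ u : SI α β r, (sg α β r u : ℂ) * chz (chi ψ χ α β r u) p *
        (p : ℂ) ^ (-(tt τ σ α β r u * I) : ℂ) =
      (∑ i, if α i = r then chz (ψ i) p * (p : ℂ) ^ (-(τ i * I) : ℂ) else 0) -
        ∑ j, if β j = r then chz (χ j) p * (p : ℂ) ^ (-(σ j * I) : ℂ) else 0 := by
  classical
  rw [Fintype.sum_sum_type, sub_eq_add_neg, ← Finset.sum_neg_distrib]
  congr 1
  · rw [← Finset.sum_filter, Finset.sum_subtype (p := fun i => α i = r) _ (by simp)]
    refine Finset.sum_congr rfl fun u _ => ?_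
    simp [sg, chi, tt]
  · have h1 : ∀ j, -(if β j = r then chz (χ j) p * (p : ℂ) ^ (-(σ j * I) : ℂ) else 0) =
        if β j = r then -(chz (χ j) p * (p : ℂ) ^ (-(σ j * I) : ℂ)) else 0 := by
      intro j
      split_ifs <;> simp
    simp_rw [h1]
    rw [← Finset.sum_filter, Finset.sum_subtype (p := fun j => β j = r) _ (by simp)]
    refine Finset.sum_congr rfl fun u _ => ?_
    simp [sg, chi, tt]

end

/-- **(DIR)** -/
theorem pf_DIR (h1 : T_FIR) (h2 : T_DDN) (h3 : T_DI2) : T_DIR := by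
  classical
  intro n m ψ α τ χ β σ r d ε hr hα hβ hex hdis hd hd0 hd1 hd2 hd3 hε
  choose L hLn hLnum hLden _ hLh using h3
  have hα0 : ∀ i, 0 < α i := fun i => by rcases hα i with h | h <;> rw [h] <;> linarith
  have hβ0 : ∀ j, 0 < β j := fun j => by rcases hβ j with h | h <;> rw [h] <;> linarith
  let F : Fam :=
    { I := Fin n
      J := Fin m
      fI := inferInstance
      fJ := inferInstance
      p := fun i => ⟨L (ψ i), α i, τ i, hα0 i⟩
      q := fun j => ⟨L (χ j), β j, σ j, hβ0 j⟩ }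
  have hFd : F.d = d := by
    rw [hd]
    change ∑ i, α i * ((L (ψ i)).n : ℝ) - ∑ j, β j * ((L (χ j)).n : ℝ) = _
    congr 1
    · exact Finset.sum_congr rfl fun i _ => by rw [hLn]; simp
    · exact Finset.sum_congr rfl fun i _ => by rw [hLn]; simp
  -- the density condition
  have hbq : ∀ p : ℕ, p.Prime → bq F.f r p =
      (∑ i, if α i = r then chz (ψ i) p * (p : ℂ) ^ (-(τ i * I) : ℂ) else 0) -
        ∑ j, if β j = r then chz (χ j) p * (p : ℂ) ^ (-(σ j * I) : ℂ) else 0 := by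
    intro p hp
    unfold bq
    have e1 : (∑ l : F.Ix, if (F.f l).r = r then
        (F.f l).c p * (p : ℂ) ^ (-((F.f l).τ * I) : ℂ) else 0) =
        (∑ x : (Σ i : F.I, Fin (F.p i).L.n), if (F.f (Sum.inl x)).r = r then
          (F.f (Sum.inl x)).c p * (p : ℂ) ^ (-((F.f (Sum.inl x)).τ * I) : ℂ) else 0) +
        ∑ x : (Σ j : F.J, Fin (F.q j).L.n), if (F.f (Sum.inr x)).r = r then
          (F.f (Sum.inr x)).c p * (p : ℂ) ^ (-((F.f (Sum.inr x)).τ * I) : ℂ) else 0 :=
      Fintype.sum_sum_type _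
    rw [e1, sub_eq_add_neg, ← Finset.sum_neg_distrib]
    congr 1
    · rw [Fintype.sum_sigma]
      refine Finset.sum_congr rfl fun i _ => ?_
      have e2 : ∀ k : Fin (F.p i).L.n, (if (F.f (Sum.inl ⟨i, k⟩)).r = r then
          (F.f (Sum.inl ⟨i, k⟩)).c p * (p : ℂ) ^ (-((F.f (Sum.inl ⟨i, k⟩)).τ * I) : ℂ) else 0) =
          if α i = r then chz (ψ i) p * (p : ℂ) ^ (-(τ i * I) : ℂ) else 0 := by
        intro k
        change (if α i = r then (L (ψ i)).h k p * (p : ℂ) ^ (-(τ i * I) : ℂ) else 0) = _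
        rw [hLh]
      simp_rw [e2]
      rw [Finset.sum_const, Finset.card_univ, Fintype.card_fin]
      change (L (ψ i)).n • _ = _
      rw [hLn, one_smul]
    · rw [Fintype.sum_sigma]
      refine Finset.sum_congr rfl fun i _ => ?_
      have e2 : ∀ k : Fin (F.q i).L.n, (if (F.f (Sum.inr ⟨i, k⟩)).r = r then
          (F.f (Sum.inr ⟨i, k⟩)).c p * (p : ℂ) ^ (-((F.f (Sum.inr ⟨i, k⟩)).τ * I) : ℂ) else 0) =
          -(if β i = r then chz (χ i) p * (p : ℂ) ^ (-(σ i * I) : ℂ) else 0) := by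
        intro k
        change (if β i = r then (((ArithmeticFunction.moebius p : ℤ) : ℂ) * (L (χ i)).h k p) *
          (p : ℂ) ^ (-(σ i * I) : ℂ) else 0) = _
        rw [hLh, ArithmeticFunction.moebius_apply_prime hp]
        split_ifs
        · push_cast
          ring
        · simp
      simp_rw [e2]
      rw [Finset.sum_const, Finset.card_univ, Fintype.card_fin]
      change (L (χ i)).n • _ = _
      rw [hLn, one_smul]
  have hDen : DenR F.f r := by
    intro x₁ x₂ ε' hx1 hx12 hε'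
    let e : SI α β r ≃ Fin (Fintype.card (SI α β r)) := Fintype.equivFin _
    have hk : 1 ≤ Fintype.card (SI α β r) := by
      refine Fintype.card_pos_iff.2 ?_
      rcases hex with ⟨i, hi⟩ | ⟨j, hj⟩
      · exact ⟨Sum.inl ⟨i, hi⟩⟩
      · exact ⟨Sum.inr ⟨j, hj⟩⟩
    obtain ⟨T₀, hT₀⟩ := h2 (Fintype.card (SI α β r)) (fun i => chi ψ χ α β r (e.symm i))
      (fun i => tt τ σ α β r (e.symm i)) (fun i => sg α β r (e.symm i))
      (fun i => by
        have := class_ne ψ χ τ σ α β r hdis (e.symm i)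
        rw [← Equiv.sum_comp e.symm] at this
        exact this) hk x₁ x₂ ε' hx1 hx12 hε'
    refine ⟨T₀, fun T hT => ?_⟩
    obtain ⟨X, hX1, hX2, hX3⟩ := hT₀ T hT
    refine ⟨X, hX1, hX2, hX3.trans (le_of_eq ?_)⟩
    refine Finset.sum_congr rfl fun p hp => ?_
    rw [Finset.mem_filter] at hp
    rw [hbq p hp.2, ← sum_class ψ χ τ σ α β r p]
    rw [← Equiv.sum_comp e.symm]
  obtain ⟨T₀, h⟩ := h1 F r ε (by rw [hFd]; exact hd0) (by rw [hFd]; exact hd1) hr
    (by rw [hFd]; exact hd2) (by rw [hFd]; exact hd3) (fun i => (hα i).symm)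
    (fun j => (hβ j).symm) hDen hε
  rw [hFd] at h
  have hα1 : ∀ i, 1 ≤ α i := fun i => by rcases hα i with h | h <;> rw [h]; linarith
  have hβ1 : ∀ j, 1 ≤ β j := fun j => by rcases hβ j with h | h <;> rw [h]; linarith
  refine ⟨max T₀ (1 + ∑ i, |τ i| + ∑ j, |σ j|), fun T hT => ?_⟩
  have hT1 : T₀ ≤ T := (le_max_left _ _).trans hT
  have hT2 : 1 + ∑ i, |τ i| + ∑ j, |σ j| ≤ T := (le_max_right _ _).trans hT
  obtain ⟨Z, hZ, hz⟩ := h T hT1
  refine ⟨Z, hZ, fun z hzZ => ?_⟩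
  obtain ⟨z1, z2, z3⟩ := hz z hzZ
  refine ⟨z1, z2, ?_⟩
  have hs1 : 0 ≤ ∑ i, |τ i| := Finset.sum_nonneg fun i _ => abs_nonneg _
  have hs2 : 0 ≤ ∑ j, |σ j| := Finset.sum_nonneg fun i _ => abs_nonneg _
  have hp : ∀ i, 0 < (wl (α i) (τ i) z).im := by
    intro i
    rw [Pool.Agent.H48.DL.wl_im]
    have h4 : |τ i| ≤ ∑ i, |τ i| :=
      Finset.single_le_sum (f := fun i => |τ i|) (fun i _ => abs_nonneg _) (Finset.mem_univ i)
    have h5 := neg_abs_le (τ i)
    have h6 := hα1 i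
    nlinarith
  have hq : ∀ j, 0 < (wl (β j) (σ j) z).im := by
    intro j
    rw [Pool.Agent.H48.DL.wl_im]
    have h4 : |σ j| ≤ ∑ j, |σ j| :=
      Finset.single_le_sum (f := fun j => |σ j|) (fun i _ => abs_nonneg _) (Finset.mem_univ j)
    have h5 := neg_abs_le (σ j)
    have h6 := hβ1 j
    nlinarith
  have hN := Pool.Agent.H48.DL.order_N F z hp hq
  have hM := Pool.Agent.H48.DL.order_M F z hp hq
  have hone : ∀ w : ℂ, analyticOrderAt (fun _ : ℂ => (1 : ℂ)) w = 0 := fun w =>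
    analyticOrderAt_eq_zero.2 (Or.inr one_ne_zero)
  have hN' : analyticOrderAt F.N z = ∑ i, analyticOrderAt (ψ i).L (wl (α i) (τ i) z) := by
    rw [hN]
    change (∑ i, analyticOrderAt (L (ψ i)).num (wl (α i) (τ i) z)) +
      ∑ j, analyticOrderAt (L (χ j)).den (wl (β j) (σ j) z) = _
    simp only [hLnum, hLden, hone, Finset.sum_const_zero, add_zero]
  have hM' : analyticOrderAt F.M z = ∑ j, analyticOrderAt (χ j).L (wl (β j) (σ j) z) := by
    rw [hM]
    change (∑ i, analyticOrderAt (L (ψ i)).den (wl (α i) (τ i) z)) +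
      ∑ j, analyticOrderAt (L (χ j)).num (wl (β j) (σ j) z) = _
    simp only [hLnum, hLden, hone, Finset.sum_const_zero, zero_add]
  have h4 : analyticOrderAt F.N z < analyticOrderAt F.M z := z3
  rw [hN', hM'] at h4
  exact h4

end Pool.Agent.H90.EX
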