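import Pool.Agent.H90.EX.DLRa

/-!
# Test polynomials over primes of the larger dilation: the lower bound (DLR)
-/

set_option autoImplicit false

open Complex MeasureTheory Set Filter Topology

namespace Pool.Agent.H90.EX

open Pool.Agent.H25.DL Pool.Agent.H25.DP Pool.Agent.H29.EX Pool.Agent.H39.DP

variable {ι : Type} [Fintype ι]

open Classical in
/-- few tuples with a given product -/
lemma TU_fib (f : ι → Fac) (D e : ℝ) (hr : ∀ l, 1 ≤ (f l).r) (hD1 : D < 2)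
    (he : 0 < e) : ∀ᶠ T : ℝ in atTop,
      (∀ n : ℕ, n ≠ 0 → (((TU f D T).filter fun z => ∏ l, z l = n).card : ℝ) ≤ T ^ e) := by
  set L := Fintype.card ι with hL
  set e' : ℝ := e / (4 * (L + 1)) with he'
  have hLpos : (0 : ℝ) < 4 * (L + 1) := by positivity
  have he'pos : 0 < e' := by positivity
  obtain ⟨C, hC, hdiv⟩ := Pool.Agent.H89.Cubic.div_bound e' he'pos
  filter_upwards [ev_rpow (C ^ L) (e / 2) e (by linarith), ev_rpow (2 ^ L) D 2 hD1,
    eventually_ge_atTop 1] with T h1 h2 hT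
  have hT0 : 0 < T := by linarith
  intro n hn
  rcases Finset.eq_empty_or_nonempty ((TU f D T).filter fun z => ∏ l, z l = n) with h | h
  · rw [h]
    simp only [Finset.card_empty, Nat.cast_zero]
    positivity
  · obtain ⟨z, hz⟩ := h
    rw [Finset.mem_filter] at hz
    have hnT : (n : ℝ) ≤ T ^ (2 : ℝ) := by
      rw [← hz.2]
      exact (TU_prod_le hr hT hz.1).trans h2
    have hn1 : 1 ≤ n := Nat.one_le_iff_ne_zero.2 hn
    have h4 : (n.divisors.card : ℝ) ≤ C * T ^ (2 * e') := by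
      refine (hdiv n hn1).trans ?_
      rw [Real.rpow_mul hT0.le]
      gcongr
    calc (((TU f D T).filter fun z => ∏ l, z l = n).card : ℝ)
        ≤ ((n.divisors.card ^ L : ℕ) : ℝ) := by exact_mod_cast card_fiber_le _ n hn
      _ = (n.divisors.card : ℝ) ^ L := by push_cast; rfl
      _ ≤ (C * T ^ (2 * e')) ^ L := by gcongr
      _ = C ^ L * T ^ (2 * e' * L) := by
          rw [mul_pow, ← Real.rpow_natCast (T ^ (2 * e')), ← Real.rpow_mul hT0.le]
      _ ≤ C ^ L * T ^ (e / 2) := by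
          gcongr
          rw [he', mul_div_assoc', div_mul_eq_mul_div, div_le_iff₀ hLpos]
          nlinarith
      _ ≤ T ^ e := h1

/-- the size of a coefficient -/
lemma norm_co_le' {f : ι → Fac} {z : ι → ℕ} (hz : ∀ l, 1 ≤ z l) :
    ‖co f z‖ ≤ ((kk f z : ℝ) * NN f z) ^ (-(1 / 2) : ℝ) := by
  have h0 : (kk f z : ℝ) * NN f z = ∏ l, (z l : ℝ) := by
    have := NN_mul_kk f z
    rw [mul_comm]
    exact_mod_cast this
  rw [h0, ← Real.finsetProd_rpow _ _ fun l _ => by positivity]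
  unfold co
  rw [norm_prod]
  refine Finset.prod_le_prod (fun l _ => norm_nonneg _) fun l _ => ?_
  have h0 : 0 < z l := hz l
  rw [norm_mul, Complex.norm_natCast_cpow_of_pos h0]
  have h2 : (-(1 / 2 + (f l).τ * I) : ℂ).re = -(1 / 2) := by simp
  rw [h2]
  have h3 : (0 : ℝ) ≤ (z l : ℝ) ^ (-(1 / 2) : ℝ) := by positivity
  calc _ ≤ 1 * (z l : ℝ) ^ (-(1 / 2) : ℝ) := by
        gcongr
        exact (f l).c_le (z l)
    _ = _ := one_mul _

/-- the frequencies of the tuples of the main blocks -/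
lemma TU_lam_le {f : ι → Fac} {D T : ℝ} (hr : ∀ l, 0 ≤ (f l).r) {z : ι → ℕ}
    (hz : z ∈ TU f D T) : lam f z ≤ D * Real.log T + (∑ l, (f l).r) * Real.log 2 := by
  classical
  have hz1 := TU_pos hz
  unfold TU at hz
  rw [Finset.mem_biUnion] at hz
  obtain ⟨j, h1, h2⟩ := hz
  rw [Fintype.mem_piFinset] at h2
  unfold mains at h1
  rw [Finset.mem_filter] at h1
  have h3 := h1.2
  unfold lam
  have h4 : ∀ l, (f l).r * Real.log (z l) ≤ (j l : ℝ) * (f l).r * Real.log 2 +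
      (f l).r * Real.log 2 := by
    intro l
    have h5 := (Finset.mem_Ico.1 (h2 l)).2
    have h6 : Real.log (z l) ≤ ((j l : ℝ) + 1) * Real.log 2 := by
      have h7 : ((j l : ℝ) + 1) = ((j l + 1 : ℕ) : ℝ) := by push_cast; rfl
      rw [h7, ← Real.log_pow]
      refine Real.log_le_log ?_ ?_
      · exact_mod_cast hz1 l
      · exact_mod_cast h5.le
    have := mul_le_mul_of_nonneg_left h6 (hr l)
    linarith
  calc _ ≤ ∑ l, ((j l : ℝ) * (f l).r * Real.log 2 + (f l).r * Real.log 2) :=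
        Finset.sum_le_sum fun l _ => h4 l
    _ = ∑ l, (j l : ℝ) * (f l).r * Real.log 2 + (∑ l, (f l).r) * Real.log 2 := by
        rw [Finset.sum_add_distrib, Finset.sum_mul]
    _ ≤ _ := by
        have h3' : ∑ l, (j l : ℝ) * (f l).r * Real.log 2 ≤ D * Real.log T := h3
        linarith

/-- the size of the integral -/
lemma II_le {C : ℝ} (hC : 0 < C)
    (hI : ∀ H W Δ : ℝ, 0 < W → ‖II H W Δ‖ ≤ C * W ∧ (Δ ≠ 0 → ‖II H W Δ‖ ≤ C / (W * Δ ^ 2)))
    {T : ℝ} (hT : 0 < T) (H Δ : ℝ) : ‖II H (T / 2) Δ‖ ≤ 4 * C * gg T Δ := by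
  have hW : 0 < T / 2 := by positivity
  have h1 := hI H (T / 2) Δ hW
  unfold gg
  have h2 : 0 < 1 + (T * Δ) ^ 2 := by positivity
  rw [mul_div_assoc', le_div_iff₀ h2]
  rcases le_or_gt ((T * Δ) ^ 2) 1 with h | h
  · calc ‖II H (T / 2) Δ‖ * (1 + (T * Δ) ^ 2) ≤ C * (T / 2) * 2 := by
          refine mul_le_mul h1.1 (by linarith) h2.le (by positivity)
      _ ≤ 4 * C * T := by nlinarith [mul_pos hC hT]
  · have hΔ : Δ ≠ 0 := by
      rintro rfl
      norm_num at h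
    have hΔ2 : 0 < Δ ^ 2 := by positivity
    calc ‖II H (T / 2) Δ‖ * (1 + (T * Δ) ^ 2) ≤ C / (T / 2 * Δ ^ 2) * (2 * (T * Δ) ^ 2) := by
          refine mul_le_mul (h1.2 hΔ) (by linarith) h2.le (by positivity)
      _ = 4 * C * T := by
          field_simp
          ring

lemma gg_nonneg {T : ℝ} (hT : 0 ≤ T) (Δ : ℝ) : 0 ≤ gg T Δ := by
  unfold gg
  positivity

/-- the terms off the diagonal -/
lemma off_sumR {C : ℝ} (hC : 0 < C)
    (hI : ∀ H W Δ : ℝ, 0 < W → ‖II H W Δ‖ ≤ C * W ∧ (Δ ≠ 0 → ‖II H W Δ‖ ≤ C / (W * Δ ^ 2)))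
    (f : ι → Fac) {r D D' T e H M : ℝ} (hr1 : 1 < r) (hr : ∀ l, (f l).r = r ∨ (f l).r = 1)
    (hT : 1 ≤ T) (X : ℕ) (hDD : D * Real.log T + (∑ l, (f l).r) * Real.log 2 ≤ D' * Real.log T)
    (hfib : ∀ n : ℕ, n ≠ 0 → (((TU f D T).filter fun z => ∏ l, z l = n).card : ℝ) ≤ T ^ e)
    (hOF : ∀ U : Finset (ℕ × ℕ), (∀ q ∈ U, 1 ≤ q.1 ∧ 1 ≤ q.2 ∧
        (q.1 : ℝ) * (q.2 : ℝ) ^ r ≤ T ^ D') →
      ∑ p ∈ (Finset.Ico X (2 * X)).filter Nat.Prime,
        ∑ q ∈ U.filter (fun q => ¬(q.1 = 1 ∧ q.2 = p)),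
          ((q.1 : ℝ) * q.2) ^ (-(1 / 2) : ℝ) * gg T (dl r q.1 q.2 p) ≤ M)
    (g : (ι → ℕ) → ℝ) (hg : ∀ z, |g z| ≤ 1) (ρ : ℕ → ℂ)
    (hρ : ∀ p, ‖ρ p‖ ≤ (X : ℝ) ^ (-(1 / 2) : ℝ)) :
    ∑ p ∈ (Finset.Ico X (2 * X)).filter Nat.Prime,
      ∑ z ∈ (TU f D T).filter (fun z => ¬(kk f z = 1 ∧ NN f z = p)),
        ‖(starRingEnd ℂ) (co f z) * (g z : ℂ) * ρ p * II H (T / 2) (lam f z - r * Real.log p)‖ ≤
      (X : ℝ) ^ (-(1 / 2) : ℝ) * (4 * C) * (T ^ e * M) := by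
  classical
  have hT0 : 0 < T := by linarith
  set P := (Finset.Ico X (2 * X)).filter Nat.Prime with hP
  have hXp : (0 : ℝ) ≤ (X : ℝ) ^ (-(1 / 2) : ℝ) := by positivity
  set q : (ι → ℕ) → ℕ × ℕ := fun z => (kk f z, NN f z) with hq
  set U : Finset (ℕ × ℕ) := (TU f D T).image q with hU
  set G : ℕ → ℕ × ℕ → ℝ := fun p q =>
    ((q.1 : ℝ) * q.2) ^ (-(1 / 2) : ℝ) * gg T (dl r q.1 q.2 p) with hG
  have hG0 : ∀ p q, 0 ≤ G p q := fun p q => by
    rw [hG]
    have := gg_nonneg hT0.le (dl r q.1 q.2 p)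
    simp only
    positivity
  have hUmem : ∀ q ∈ U, 1 ≤ q.1 ∧ 1 ≤ q.2 ∧ (q.1 : ℝ) * (q.2 : ℝ) ^ r ≤ T ^ D' := by
    intro q' hq'
    rw [hU, Finset.mem_image] at hq'
    obtain ⟨z, hz, rfl⟩ := hq'
    have hzp := TU_pos hz
    have hk := kk_pos (f := f) hzp
    have hN := NN_pos (f := f) hzp
    refine ⟨hk, hN, ?_⟩
    have hkR : (0 : ℝ) < kk f z := by exact_mod_cast hk
    have hNR : (0 : ℝ) < NN f z := by exact_mod_cast hN
    have h1 : lam f z ≤ D' * Real.log T :=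
      (TU_lam_le (fun l => (f l).r_pos.le) hz).trans hDD
    rw [lam_eq hr hzp] at h1
    rw [← Real.log_le_log_iff (by positivity) (by positivity),
      Real.log_mul hkR.ne' (by positivity), Real.log_rpow hNR, Real.log_rpow hT0]
    linarith
  have hterm : ∀ p ∈ P, ∀ z ∈ (TU f D T).filter (fun z => ¬(kk f z = 1 ∧ NN f z = p)),
      ‖(starRingEnd ℂ) (co f z) * (g z : ℂ) * ρ p * II H (T / 2) (lam f z - r * Real.log p)‖ ≤
        (X : ℝ) ^ (-(1 / 2) : ℝ) * (4 * C) * G p (q z) := by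
    intro p hp z hz
    rw [Finset.mem_filter] at hz
    have hzp := TU_pos hz.1
    have h1 : lam f z - r * Real.log p = dl r (kk f z) (NN f z) p := by
      rw [lam_eq hr hzp]
      unfold Pool.Agent.H29.EX.dl
      ring
    have h2 := II_le hC hI hT0 H (dl r (kk f z) (NN f z) p)
    have h3 := norm_co_le' (f := f) hzp
    rw [norm_mul, norm_mul, norm_mul, RCLike.norm_conj, Complex.norm_real, Real.norm_eq_abs, h1]
    have h4 := gg_nonneg hT0.le (dl r (kk f z) (NN f z) p)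
    calc ‖co f z‖ * |g z| * ‖ρ p‖ * ‖II H (T / 2) (dl r (kk f z) (NN f z) p)‖
        ≤ ((kk f z : ℝ) * NN f z) ^ (-(1 / 2) : ℝ) * 1 * (X : ℝ) ^ (-(1 / 2) : ℝ) *
            (4 * C * gg T (dl r (kk f z) (NN f z) p)) := by
          gcongr
          · exact hg z
          · exact hρ p
      _ = _ := by
          simp only [hG, hq]
          ring
  have hfibsum : ∀ p : ℕ, ∑ z ∈ (TU f D T).filter (fun z => ¬(kk f z = 1 ∧ NN f z = p)),
      G p (q z) ≤ T ^ e * ∑ q ∈ U.filter (fun q => ¬(q.1 = 1 ∧ q.2 = p)), G p q := by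
    intro p
    have hmaps : ∀ z ∈ (TU f D T).filter (fun z => ¬(kk f z = 1 ∧ NN f z = p)),
        q z ∈ U.filter (fun q => ¬(q.1 = 1 ∧ q.2 = p)) := by
      intro z hz
      rw [Finset.mem_filter] at hz
      rw [Finset.mem_filter]
      exact ⟨Finset.mem_image_of_mem _ hz.1, hz.2⟩
    rw [← Finset.sum_fiberwise_of_maps_to hmaps, Finset.mul_sum]
    refine Finset.sum_le_sum fun b hb => ?_
    have h1 : ∑ z ∈ ((TU f D T).filter (fun z => ¬(kk f z = 1 ∧ NN f z = p))).filter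
        (fun z => q z = b), G p (q z) =
        (((TU f D T).filter (fun z => ¬(kk f z = 1 ∧ NN f z = p))).filter
        (fun z => q z = b)).card * G p b := by
      rw [← nsmul_eq_mul, ← Finset.sum_const]
      refine Finset.sum_congr rfl fun z hz => ?_
      rw [(Finset.mem_filter.1 hz).2]
    rw [h1]
    refine mul_le_mul_of_nonneg_right ?_ (hG0 p b)
    have hb2 := hUmem b (Finset.mem_filter.1 hb).1
    have hne : b.2 * b.1 ≠ 0 := Nat.mul_ne_zero (by omega) (by omega)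
    refine le_trans ?_ (hfib (b.2 * b.1) hne)
    have hsub : ((TU f D T).filter (fun z => ¬(kk f z = 1 ∧ NN f z = p))).filter
        (fun z => q z = b) ⊆ (TU f D T).filter fun z => ∏ l, z l = b.2 * b.1 := by
      intro z hz
      rw [Finset.mem_filter, Finset.mem_filter] at hz
      rw [Finset.mem_filter]
      refine ⟨hz.1.1, ?_⟩
      rw [← NN_mul_kk f z, ← hz.2]
    exact_mod_cast Finset.card_le_card hsub
  calc _ ≤ ∑ p ∈ P, ∑ z ∈ (TU f D T).filter (fun z => ¬(kk f z = 1 ∧ NN f z = p)),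
        (X : ℝ) ^ (-(1 / 2) : ℝ) * (4 * C) * G p (q z) :=
        Finset.sum_le_sum fun p hp => Finset.sum_le_sum fun z hz => hterm p hp z hz
    _ = (X : ℝ) ^ (-(1 / 2) : ℝ) * (4 * C) *
        ∑ p ∈ P, ∑ z ∈ (TU f D T).filter (fun z => ¬(kk f z = 1 ∧ NN f z = p)), G p (q z) := by
        simp_rw [← Finset.mul_sum]
    _ ≤ (X : ℝ) ^ (-(1 / 2) : ℝ) * (4 * C) *
        ∑ p ∈ P, T ^ e * ∑ q ∈ U.filter (fun q => ¬(q.1 = 1 ∧ q.2 = p)), G p q := by
        refine mul_le_mul_of_nonneg_left (Finset.sum_le_sum fun p _ => hfibsum p) (by positivity)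
    _ = (X : ℝ) ^ (-(1 / 2) : ℝ) * (4 * C) *
        (T ^ e * ∑ p ∈ P, ∑ q ∈ U.filter (fun q => ¬(q.1 = 1 ∧ q.2 = p)), G p q) := by
        rw [← Finset.mul_sum]
    _ ≤ _ := by
        have := hOF U hUmem
        gcongr

/-- **(DLR)** the lower bound. -/
theorem pf_DLR (hE : T_DLX) (hIM : T_IM) (hOF : T_OF) : T_DLR := by
  classical
  intro ι _ f r x₁ x₂ D β ε hr2 hr hDen hx1 hx12 hx2 hrx hx2D hD hβ hε
  have hr1 : ∀ l, 1 ≤ (f l).r := fun l => by rcases hr l with h | h <;> rw [h]; linarith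
  obtain ⟨C, hC, hI⟩ := hIM
  have hI' : ∀ H W Δ : ℝ, 0 < W →
      ‖II H W Δ‖ ≤ C * W ∧ (Δ ≠ 0 → ‖II H W Δ‖ ≤ C / (W * Δ ^ 2)) := hI
  have hD0 : 0 < D := by nlinarith
  obtain ⟨c, T₃, hc, hT₃⟩ := hOF r x₁ x₂ ((D + 2) / 2) hr2 hx1 hx12 hx2 hrx (by linarith)
    (by linarith)
  set η : ℝ := min ε (min (c / 4) (1 / 32)) with hη
  have hη0 : 0 < η := by
    rw [hη]
    refine lt_min hε (lt_min ?_ ?_)
    · linarith
    · norm_num
  have hη1 : η ≤ ε := min_le_left _ _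
  have hη2 : η ≤ c / 4 := (min_le_right _ _).trans (min_le_left _ _)
  have hη3 : η ≤ 1 / 32 := (min_le_right _ _).trans (min_le_right _ _)
  obtain ⟨T₁, hT₁⟩ := hDen x₁ x₂ (η / 4) hx1 hx12 (by linarith)
  obtain ⟨T₂, hT₂⟩ := hE ι f D β hr1 hD0 (by linarith) hβ
  set L : ℕ := Fintype.card ι with hL
  set c₀ : ℝ := Real.exp (-(β ^ 2 * (r * Real.log 2) ^ 2 / 4)) / (L + 1) * (16 / 35 * (1 / 2))
    with hc₀
  have hc₀pos : 0 < c₀ := by positivity
  set R : ℝ := ∑ l, (f l).r with hR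
  have hev : ∀ᶠ T : ℝ in atTop, ∃ (X : ℕ) (ρ : ℕ → ℂ), T ^ x₁ ≤ X ∧ (X : ℝ) ≤ T ^ x₂ ∧
      (∀ p, ‖ρ p‖ ≤ (X : ℝ) ^ (-(1 / 2) : ℝ)) ∧
      T ^ (1 - ε) ≤ ‖∫ u in (5 * T / 4)..(5 * T / 4 + T / 2),
        (om ((u - 5 * T / 4) / (T / 2)) : ℂ) *
          (∑ j ∈ mains f 1 D T, LX f β (r * Real.log X) (Real.log T) j u) * TQ r X ρ u‖ := by
    filter_upwards [eventually_ge_atTop T₁, eventually_ge_atTop T₂, eventually_ge_atTop T₃,
      eventually_ge_atTop 1, TU_fib f D η hr1 (by linarith) hη0,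
      ev_rpow (2 ^ r) (r * x₂) D hx2D, ev_rpow (2 ^ R) D ((D + 2) / 2) (by linarith),
      ev_rpow (4 / c₀) (1 - η) (1 - η / 4) (by linarith),
      ev_rpow (4 / c₀) 0 (1 - η / 4) (by linarith),
      ev_rpow (4 / c₀ * (4 * C)) (1 - 3 * η) (1 - η / 4) (by linarith)]
      with T h1 h2 h22 hT hcount h3 h4 h6 h7 h8
    have hT0 : 0 < T := by linarith
    obtain ⟨X, hX1, hX2, hS⟩ := hT₁ T h1
    have hXR : (1 : ℝ) ≤ X := (Real.one_le_rpow hT hx1.le).trans hX1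
    have hX : 1 ≤ X := by exact_mod_cast hXR
    have hX0 : (0 : ℝ) < X := by linarith
    have hW0 : 0 < T / 2 := by positivity
    set H : ℝ := 5 * T / 4 with hH
    set ρ : ℕ → ℂ := rq f r X with hρdef
    have hρ : ∀ p, ‖ρ p‖ ≤ (X : ℝ) ^ (-(1 / 2) : ℝ) := fun p => norm_rq_le f r X p hX
    refine ⟨X, ρ, hX1, hX2, hρ, ?_⟩
    set ξ : ℝ := r * Real.log X with hξ
    set g : (ι → ℕ) → ℝ := fun z => Real.exp (-(β ^ 2 * (lam f z - ξ) ^ 2 / 4)) with hgdef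
    have hg : ∀ z, |g z| ≤ 1 := by
      intro z
      rw [hgdef]
      simp only
      rw [abs_of_pos (Real.exp_pos _), Real.exp_le_one_iff]
      have : 0 ≤ β ^ 2 * (lam f z - ξ) ^ 2 / 4 := by positivity
      linarith
    have hexp := expandQ f r D T ξ β H (T / 2) (T ^ (-5 : ℝ)) hW0 (by positivity) g X ρ hρ
      (fun u => hT₂ T h2 u ξ)
    set E : ℂ := ∫ u in H..(H + T / 2), (om ((u - H) / (T / 2)) : ℂ) *
          (∑ j ∈ mains f 1 D T, LX f β ξ (Real.log T) j u) * TQ r X ρ u with hEdef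
    set P := (Finset.Ico X (2 * X)).filter Nat.Prime with hP
    -- the double sum
    set t : (ι → ℕ) → ℕ → ℂ := fun z p =>
      (starRingEnd ℂ) (co f z) * (g z : ℂ) * ρ p * II H (T / 2) (lam f z - r * Real.log p) with ht
    have hE0 : ∑ z ∈ TU f D T, ∑ p ∈ Finset.Ico X (2 * X), t z p =
        ∑ p ∈ P, ∑ z ∈ TU f D T, t z p := by
      rw [Finset.sum_comm]
      refine (Finset.sum_subset (Finset.filter_subset _ _) fun p _ hp => ?_).symm
      refine Finset.sum_eq_zero fun z _ => ?_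
      have : ρ p = 0 := by
        rw [hρdef]
        unfold rq
        rw [if_neg hp]
      rw [ht]
      simp only
      rw [this]
      ring
    have hlogp : ∀ p ∈ P, r * Real.log p ≤ D * Real.log T := by
      intro p hp
      rw [hP, Finset.mem_filter, Finset.mem_Ico] at hp
      have hp0 : (0 : ℝ) < p := by exact_mod_cast hp.2.pos
      rw [← Real.log_rpow hT0, ← Real.log_rpow hp0]
      refine Real.log_le_log (by positivity) ?_
      have h9 : (p : ℝ) ≤ 2 * X := by exact_mod_cast hp.1.2.le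
      calc (p : ℝ) ^ r ≤ (2 * X) ^ r := by gcongr
        _ ≤ (2 * T ^ x₂) ^ r := by gcongr
        _ = 2 ^ r * T ^ (r * x₂) := by
            rw [Real.mul_rpow (by norm_num) (by positivity), ← Real.rpow_mul hT0.le, mul_comm x₂]
        _ ≤ T ^ D := h3
    choose! m hm1 hm2 using fun p (hp : p ∈ P) =>
      diag_termR f r hr2 hr D T H (T / 2) β hW0 X hX p hp (hlogp p hp)
    have hsplit : ∑ p ∈ P, ∑ z ∈ TU f D T, t z p = ((∑ p ∈ P, m p : ℝ) : ℂ) +
        ∑ p ∈ P, ∑ z ∈ (TU f D T).filter (fun z => ¬(kk f z = 1 ∧ NN f z = p)), t z p := by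
      rw [Complex.ofReal_sum, ← Finset.sum_add_distrib]
      refine Finset.sum_congr rfl fun p hp => ?_
      rw [← Finset.sum_filter_add_sum_filter_not (TU f D T)
        (fun z => kk f z = 1 ∧ NN f z = p), ← hm2 p hp]
    -- the off-diagonal terms
    have hDD : D * Real.log T + R * Real.log 2 ≤ (D + 2) / 2 * Real.log T := by
      rw [← Real.log_rpow hT0, ← Real.log_rpow hT0, ← Real.log_rpow (by norm_num : (0:ℝ) < 2),
        ← Real.log_mul (by positivity) (by positivity), mul_comm]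
      exact Real.log_le_log (by positivity) h4
    have hoff := off_sumR hC hI' f (D := D) (D' := (D + 2) / 2) (T := T) (e := η) (H := H)
      (M := Real.sqrt X * T ^ (1 - c)) hr2 hr hT X hDD hcount (hT₃ T h22 X hX1 hX2) g hg ρ hρ
    -- numerical bounds
    have hXh : (X : ℝ) * (X : ℝ) ^ (-(1 / 2) : ℝ) = (X : ℝ) ^ (1 / 2 : ℝ) := by
      nth_rewrite 1 [← Real.rpow_one (X : ℝ)]
      rw [← Real.rpow_add hX0]
      norm_num
    have hXq : (X : ℝ) ^ (1 / 2 : ℝ) ≤ T ^ (1 / 4 : ℝ) := by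
      calc (X : ℝ) ^ (1 / 2 : ℝ) ≤ (T ^ x₂) ^ (1 / 2 : ℝ) := by gcongr
        _ = T ^ (x₂ * (1 / 2)) := by rw [← Real.rpow_mul hT0.le]
        _ ≤ T ^ (1 / 4 : ℝ) := Real.rpow_le_rpow_of_exponent_le hT (by linarith)
    have hpart : (X : ℝ) ^ (-(1 / 2) : ℝ) * (4 * C) * (T ^ η * (Real.sqrt X * T ^ (1 - c))) ≤
        4 * C * T ^ (1 - 3 * η) := by
      have q1 : (X : ℝ) ^ (-(1 / 2) : ℝ) * Real.sqrt X = 1 := by
        rw [Real.sqrt_eq_rpow, ← Real.rpow_add hX0]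
        norm_num
      have q2 : T ^ η * T ^ (1 - c) = T ^ (η + (1 - c)) := (Real.rpow_add hT0 _ _).symm
      calc (X : ℝ) ^ (-(1 / 2) : ℝ) * (4 * C) * (T ^ η * (Real.sqrt X * T ^ (1 - c)))
          = ((X : ℝ) ^ (-(1 / 2) : ℝ) * Real.sqrt X) * (4 * C * (T ^ η * T ^ (1 - c))) := by ring
        _ = 4 * C * T ^ (η + (1 - c)) := by rw [q1, q2, one_mul]
        _ ≤ 4 * C * T ^ (1 - 3 * η) :=
            mul_le_mul_of_nonneg_left
              (Real.rpow_le_rpow_of_exponent_le hT (by linarith)) (by positivity)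
    have hOff : ‖∑ p ∈ P, ∑ z ∈ (TU f D T).filter (fun z => ¬(kk f z = 1 ∧ NN f z = p)), t z p‖ ≤
        4 * C * T ^ (1 - 3 * η) := by
      refine (norm_sum_le _ _).trans ((Finset.sum_le_sum fun p _ => norm_sum_le _ _).trans ?_)
      exact hoff.trans hpart
    -- the main term
    have hMain : c₀ * T ^ (1 - η / 4) ≤ ∑ p ∈ P, m p := by
      calc c₀ * T ^ (1 - η / 4) = c₀ * T * T ^ (-(η / 4)) := by
            rw [sub_eq_add_neg, Real.rpow_add hT0, Real.rpow_one]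
            ring
        _ ≤ c₀ * T * ∑ p ∈ P, ‖bq f r p‖ ^ 2 / p := by gcongr
        _ = ∑ p ∈ P, c₀ * T * (‖bq f r p‖ ^ 2 / p) := by rw [Finset.mul_sum]
        _ ≤ ∑ p ∈ P, m p := by
            refine Finset.sum_le_sum fun p hp => le_trans (le_of_eq ?_) (hm1 p hp)
            rw [hc₀]
            ring
    -- conclusion
    have hsmall : T ^ (-5 : ℝ) * ((X : ℝ) * (X : ℝ) ^ (-(1 / 2) : ℝ)) * (T / 2) ≤ 1 := by
      calc _ ≤ T ^ (-5 : ℝ) * T ^ (1 / 4 : ℝ) * T := by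
            rw [hXh]
            gcongr
            linarith
        _ = T ^ (-5 + 1 / 4 + 1 : ℝ) := by
            rw [Real.rpow_add hT0, Real.rpow_add hT0, Real.rpow_one]
        _ ≤ 1 := Real.rpow_le_one_of_one_le_of_nonpos hT (by norm_num)
    rw [hE0, hsplit] at hexp
    set Off := ∑ p ∈ P, ∑ z ∈ (TU f D T).filter (fun z => ¬(kk f z = 1 ∧ NN f z = p)), t z p
    have hm0 : 0 ≤ ∑ p ∈ P, m p := le_trans (by positivity) hMain
    have hnorm : ‖((∑ p ∈ P, m p : ℝ) : ℂ)‖ = ∑ p ∈ P, m p := by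
      rw [Complex.norm_real, Real.norm_eq_abs, abs_of_nonneg hm0]
    have htri : ‖((∑ p ∈ P, m p : ℝ) : ℂ)‖ ≤
        ‖E‖ + ‖E - (((∑ p ∈ P, m p : ℝ) : ℂ) + Off)‖ + ‖Off‖ := by
      have : ((∑ p ∈ P, m p : ℝ) : ℂ) =
          E - (E - (((∑ p ∈ P, m p : ℝ) : ℂ) + Off)) - Off := by ring
      calc ‖((∑ p ∈ P, m p : ℝ) : ℂ)‖
          = ‖E - (E - (((∑ p ∈ P, m p : ℝ) : ℂ) + Off)) - Off‖ := by rw [← this]
        _ ≤ ‖E - (E - (((∑ p ∈ P, m p : ℝ) : ℂ) + Off))‖ + ‖Off‖ := norm_sub_le _ _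
        _ ≤ _ := by
            have := norm_sub_le E (E - (((∑ p ∈ P, m p : ℝ) : ℂ) + Off))
            linarith
    rw [hnorm] at htri
    have hc4 : ∀ a b : ℝ, 4 / c₀ * a ≤ b → a ≤ c₀ / 4 * b := by
      intro a b hab
      have : c₀ / 4 * (4 / c₀ * a) ≤ c₀ / 4 * b := by gcongr
      have h9 : c₀ / 4 * (4 / c₀ * a) = a := by field_simp
      linarith
    have f1 := hc4 _ _ h6
    have f2 := hc4 _ _ h7
    have f3 := hc4 (4 * C * T ^ (1 - 3 * η)) (T ^ (1 - η / 4)) (by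
      rw [← mul_assoc]; exact h8)
    rw [Real.rpow_zero] at f2
    have f4 : 0 ≤ T ^ (1 - η / 4) := by positivity
    have f5 : T ^ (1 - η) ≤ ‖E‖ := by
      have hee := hexp.trans hsmall
      linarith
    refine le_trans ?_ f5
    exact Real.rpow_le_rpow_of_exponent_le hT (by linarith)
  exact eventually_atTop.1 hev

end Pool.Agent.H90.EX
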