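import Pool.Agent.H39.DP.DLBb
import Pool.Agent.H29.EX.Targets

/-!
# Test polynomials over primes of the larger dilation: the lower bound (DLR), part a
-/

set_option autoImplicit false

open Complex MeasureTheory Set Filter Topology

namespace Pool.Agent.H90.EX

open Pool.Agent.H25.DL Pool.Agent.H25.DP Pool.Agent.H29.EX Pool.Agent.H39.DP

variable {ι : Type} [Fintype ι]

lemma continuous_TQ (a : ℝ) (X : ℕ) (ρ : ℕ → ℂ) : Continuous (TQ a X ρ) := by
  unfold TQ
  exact continuous_finsetSum _ fun p _ =>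
    continuous_const.mul ((continuous_en p).comp (by fun_prop))

lemma norm_TQ_le (a : ℝ) (X : ℕ) (ρ : ℕ → ℂ) (hρ : ∀ p, ‖ρ p‖ ≤ (X : ℝ) ^ (-(1 / 2) : ℝ)) (u : ℝ) :
    ‖TQ a X ρ u‖ ≤ (X : ℝ) * (X : ℝ) ^ (-(1 / 2) : ℝ) := by
  unfold TQ
  refine (norm_sum_le _ _).trans ?_
  calc _ ≤ ∑ p ∈ Finset.Ico X (2 * X), (X : ℝ) ^ (-(1 / 2) : ℝ) := by
        refine Finset.sum_le_sum fun p _ => ?_
        rw [norm_mul, norm_en, mul_one]
        exact hρ p
    _ = _ := by
        rw [Finset.sum_const, nsmul_eq_mul, Nat.card_Ico]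
        congr 2
        omega

/-- the expansion of the integral -/
lemma expandQ (f : ι → Fac) (r D T ξ β H W δ : ℝ) (hW : 0 < W) (hδ : 0 ≤ δ) (g : (ι → ℕ) → ℝ)
    (X : ℕ) (ρ : ℕ → ℂ) (hρ : ∀ p, ‖ρ p‖ ≤ (X : ℝ) ^ (-(1 / 2) : ℝ))
    (h : ∀ u : ℝ, ‖(∑ j ∈ mains f 1 D T, LX f β ξ (Real.log T) j u) - ∑ z ∈ TU f D T,
        (starRingEnd ℂ) (co f z) * cexp ((u * lam f z : ℝ) * I) * (g z : ℂ)‖ ≤ δ) :
    ‖(∫ u in H..(H + W), (om ((u - H) / W) : ℂ) *
          (∑ j ∈ mains f 1 D T, LX f β ξ (Real.log T) j u) * TQ r X ρ u) -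
      ∑ z ∈ TU f D T, ∑ p ∈ Finset.Ico X (2 * X),
        (starRingEnd ℂ) (co f z) * (g z : ℂ) * ρ p * II H W (lam f z - r * Real.log p)‖ ≤
      δ * ((X : ℝ) * (X : ℝ) ^ (-(1 / 2) : ℝ)) * W := by
  have hom : Continuous fun u : ℝ => (om ((u - H) / W) : ℂ) :=
    Complex.continuous_ofReal.comp (continuous_om.comp (by fun_prop))
  have hM : Continuous fun u : ℝ => ∑ z ∈ TU f D T,
      (starRingEnd ℂ) (co f z) * cexp ((u * lam f z : ℝ) * I) * (g z : ℂ) := by
    refine continuous_finsetSum _ fun z _ => ?_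
    fun_prop
  have hL : Continuous fun u : ℝ => ∑ j ∈ mains f 1 D T, LX f β ξ (Real.log T) j u :=
    continuous_finsetSum _ fun j _ => continuous_LX f β ξ _ j
  have hTP := continuous_TQ r X ρ
  have h1 : ∑ z ∈ TU f D T, ∑ p ∈ Finset.Ico X (2 * X),
        (starRingEnd ℂ) (co f z) * (g z : ℂ) * ρ p * II H W (lam f z - r * Real.log p) =
      ∫ u in H..(H + W), (om ((u - H) / W) : ℂ) * (∑ z ∈ TU f D T,
        (starRingEnd ℂ) (co f z) * cexp ((u * lam f z : ℝ) * I) * (g z : ℂ)) * TQ r X ρ u := by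
    have h2 : ∀ u : ℝ, (om ((u - H) / W) : ℂ) * (∑ z ∈ TU f D T,
        (starRingEnd ℂ) (co f z) * cexp ((u * lam f z : ℝ) * I) * (g z : ℂ)) * TQ r X ρ u =
        ∑ z ∈ TU f D T, ∑ p ∈ Finset.Ico X (2 * X),
          (starRingEnd ℂ) (co f z) * (g z : ℂ) * ρ p * ((om ((u - H) / W) : ℂ) *
            cexp (((lam f z - r * Real.log p) * u : ℝ) * I)) := by
      intro u
      unfold TQ
      rw [Finset.mul_sum (TU f D T), Finset.sum_mul]
      refine Finset.sum_congr rfl fun z _ => ?_
      rw [Finset.mul_sum]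
      refine Finset.sum_congr rfl fun p _ => ?_
      have h3 : cexp (((lam f z - r * Real.log p) * u : ℝ) * I) =
          cexp ((u * lam f z : ℝ) * I) * en p (r * u) := by
        unfold en
        rw [← Complex.exp_add]
        congr 1
        push_cast
        ring
      rw [h3]
      ring
    simp_rw [h2]
    rw [intervalIntegral.integral_finsetSum]
    · refine Finset.sum_congr rfl fun z _ => ?_
      rw [intervalIntegral.integral_finsetSum]
      · refine Finset.sum_congr rfl fun p _ => ?_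
        rw [intervalIntegral.integral_const_mul]
        rfl
      · intro p _
        refine Continuous.intervalIntegrable ?_ _ _
        exact continuous_const.mul (hom.mul (by fun_prop))
    · intro z _
      refine Continuous.intervalIntegrable ?_ _ _
      refine continuous_finsetSum _ fun p _ => ?_
      exact continuous_const.mul (hom.mul (by fun_prop))
  rw [h1, ← intervalIntegral.integral_sub]
  · have h4 := intervalIntegral.norm_integral_le_of_norm_le_const (a := H) (b := H + W)
      (C := δ * ((X : ℝ) * (X : ℝ) ^ (-(1 / 2) : ℝ)))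
      (f := fun u : ℝ => (om ((u - H) / W) : ℂ) *
          (∑ j ∈ mains f 1 D T, LX f β ξ (Real.log T) j u) * TQ r X ρ u -
        (om ((u - H) / W) : ℂ) * (∑ z ∈ TU f D T,
        (starRingEnd ℂ) (co f z) * cexp ((u * lam f z : ℝ) * I) * (g z : ℂ)) * TQ r X ρ u) ?_
    · refine h4.trans ?_
      rw [add_sub_cancel_left, abs_of_pos hW]
    · intro u hu
      rw [Set.uIoc_of_le (by linarith)] at hu
      have h5 : (om ((u - H) / W) : ℂ) *
          (∑ j ∈ mains f 1 D T, LX f β ξ (Real.log T) j u) * TQ r X ρ u -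
        (om ((u - H) / W) : ℂ) * (∑ z ∈ TU f D T,
        (starRingEnd ℂ) (co f z) * cexp ((u * lam f z : ℝ) * I) * (g z : ℂ)) * TQ r X ρ u =
        (om ((u - H) / W) : ℂ) * ((∑ j ∈ mains f 1 D T, LX f β ξ (Real.log T) j u) -
          ∑ z ∈ TU f D T,
        (starRingEnd ℂ) (co f z) * cexp ((u * lam f z : ℝ) * I) * (g z : ℂ)) * TQ r X ρ u := by
        ring
      rw [h5, norm_mul, norm_mul, Complex.norm_real, Real.norm_eq_abs]
      have h6 : |om ((u - H) / W)| ≤ 1 := by
        refine abs_om_le ?_ ?_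
        · exact div_nonneg (by linarith [hu.1]) hW.le
        · rw [div_le_one hW]
          linarith [hu.2]
      calc _ ≤ 1 * δ * ((X : ℝ) * (X : ℝ) ^ (-(1 / 2) : ℝ)) := by
            gcongr
            · exact h u
            · exact norm_TQ_le r X ρ hρ u
        _ = _ := by ring
  · exact ((hom.mul hL).mul hTP).intervalIntegrable _ _
  · exact ((hom.mul hM).mul hTP).intervalIntegrable _ _

/-! ### The diagonal -/

lemma norm_bq_le (f : ι → Fac) (r : ℝ) (p : ℕ) (hp : 0 < p) : ‖bq f r p‖ ≤ Fintype.card ι := by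
  unfold bq
  refine (norm_sum_le _ _).trans ?_
  calc _ ≤ ∑ _l : ι, (1 : ℝ) := by
        refine Finset.sum_le_sum fun l _ => ?_
        split_ifs
        · rw [norm_mul, Complex.norm_natCast_cpow_of_pos hp]
          have : (-((f l).τ * I) : ℂ).re = 0 := by simp
          rw [this, Real.rpow_zero, mul_one]
          exact (f l).c_le p
        · simp
    _ = _ := by simp

open Classical in
lemma update_mem_TUR (f : ι → Fac) (r D T : ℝ) (l : ι) (p : ℕ) (hr1 : 1 ≤ r)
    (hp : 1 ≤ p) (hl : (f l).r = r) (hpT : r * Real.log p ≤ D * Real.log T) :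
    Function.update (fun _ => 1) l p ∈ TU f D T := by
  have hlog2 : 0 < Real.log 2 := Real.log_pos one_lt_two
  have hlogp : 0 ≤ Real.log p := Real.log_nonneg (by exact_mod_cast hp)
  have h1 : (Nat.log 2 p : ℝ) * Real.log 2 ≤ Real.log p := by
    rw [← Real.log_pow]
    refine Real.log_le_log (by positivity) ?_
    have := Nat.pow_log_le_self 2 (x := p) (by omega)
    exact_mod_cast this
  have h2 : (Nat.log 2 p : ℝ) * Real.log 2 ≤ D * Real.log T :=
    h1.trans (le_trans (by nlinarith) hpT)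
  have h3 : r * ((Nat.log 2 p : ℝ) * Real.log 2) ≤ D * Real.log T :=
    le_trans (mul_le_mul_of_nonneg_left h1 (by linarith)) hpT
  unfold TU
  rw [Finset.mem_biUnion]
  refine ⟨Function.update (fun _ => 0) l (Nat.log 2 p), ?_, ?_⟩
  · unfold mains
    rw [Finset.mem_filter, Fintype.mem_piFinset]
    refine ⟨fun b => ?_, ?_⟩
    · rw [Finset.mem_range]
      by_cases hb : b = l
      · subst hb
        rw [Function.update_self, Nat.lt_succ_iff]
        refine Nat.le_floor ?_
        rw [one_mul, le_div_iff₀ hlog2]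
        exact h2
      · rw [Function.update_of_ne hb]
        omega
    · rw [Finset.sum_eq_single l]
      · rw [Function.update_self, hl]
        linarith
      · intro b _ hb
        rw [Function.update_of_ne hb]
        simp
      · intro h
        exact absurd (Finset.mem_univ l) h
  · rw [Fintype.mem_piFinset]
    intro b
    rw [Finset.mem_Ico]
    by_cases hb : b = l
    · subst hb
      rw [Function.update_self, Function.update_self]
      refine ⟨Nat.pow_log_le_self 2 (by omega), ?_⟩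
      exact Nat.lt_pow_succ_log_self one_lt_two p
    · rw [Function.update_of_ne hb, Function.update_of_ne hb]
      simp

open Classical in
lemma diag_setR (f : ι → Fac) (r D T : ℝ) (hr1 : 1 < r) (hr : ∀ l, (f l).r = r ∨ (f l).r = 1)
    (p : ℕ) (hp : p.Prime) (hpT : r * Real.log p ≤ D * Real.log T) :
    ((TU f D T).filter fun z => kk f z = 1 ∧ NN f z = p) =
      (Finset.univ.filter fun l : ι => (f l).r = r).image
        fun l => Function.update (fun _ => 1) l p := by
  have hne : ∀ l, (f l).r = r ↔ ¬(f l).r = 1 := by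
    intro l
    constructor
    · intro h h'
      rw [h] at h'
      linarith
    · intro h
      rcases hr l with h' | h'
      · exact h'
      · exact absurd h' h
  ext z
  rw [Finset.mem_filter, Finset.mem_image]
  constructor
  · rintro ⟨hz, hk, hN⟩
    have hdvd : p ∣ ∏ l, (if (f l).r = 1 then 1 else z l) := by
      unfold NN at hN
      rw [hN]
    obtain ⟨l, _, hl⟩ := (Nat.Prime.prime hp).exists_mem_finset_dvd hdvd
    have hlr : ¬(f l).r = 1 := by
      intro hne
      rw [if_pos hne] at hl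
      exact hp.one_lt.ne' (Nat.dvd_one.1 hl)
    rw [if_neg hlr] at hl
    have hzl : z l = p := by
      have h1 : (if (f l).r = 1 then 1 else z l) ∣ NN f z :=
        Finset.dvd_prod_of_mem _ (Finset.mem_univ l)
      rw [if_neg hlr, hN] at h1
      exact Nat.dvd_antisymm h1 hl
    refine ⟨l, Finset.mem_filter.2 ⟨Finset.mem_univ l, (hne l).2 hlr⟩, ?_⟩
    funext b
    by_cases hb : b = l
    · subst hb
      rw [Function.update_self, hzl]
    · rw [Function.update_of_ne hb]
      by_cases hbr : (f b).r = 1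
      · have h4 : (if (f b).r = 1 then z b else 1) ∣ kk f z :=
          Finset.dvd_prod_of_mem _ (Finset.mem_univ b)
        rw [hk, if_pos hbr, Nat.dvd_one] at h4
        exact h4.symm
      · have h2 : NN f z = (if (f l).r = 1 then 1 else z l) *
            ∏ x ∈ Finset.univ.erase l, (if (f x).r = 1 then 1 else z x) := by
          unfold NN
          exact (Finset.mul_prod_erase Finset.univ (fun x => if (f x).r = 1 then 1 else z x)
            (Finset.mem_univ l)).symm
        rw [if_neg hlr, hN, hzl] at h2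
        have h3 : ∏ x ∈ Finset.univ.erase l, (if (f x).r = 1 then 1 else z x) = 1 :=
          Nat.eq_of_mul_eq_mul_left hp.pos (h2.symm.trans (mul_one p).symm)
        have h4 : (if (f b).r = 1 then 1 else z b) ∣
            ∏ x ∈ Finset.univ.erase l, (if (f x).r = 1 then 1 else z x) :=
          Finset.dvd_prod_of_mem _ (Finset.mem_erase.2 ⟨hb, Finset.mem_univ b⟩)
        rw [h3, if_neg hbr, Nat.dvd_one] at h4
        exact h4.symm
  · rintro ⟨l, hl, rfl⟩
    have hlr := (Finset.mem_filter.1 hl).2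
    refine ⟨update_mem_TUR f r D T l p hr1.le hp.one_lt.le hlr hpT, ?_, ?_⟩
    · unfold kk
      refine Finset.prod_eq_one fun b _ => ?_
      by_cases hb : b = l
      · subst hb
        rw [if_neg ((hne b).1 hlr)]
      · rw [Function.update_of_ne hb]
        simp
    · unfold NN
      rw [Finset.prod_eq_single l]
      · rw [if_neg ((hne l).1 hlr), Function.update_self]
      · intro b _ hb
        rw [Function.update_of_ne hb]
        simp
      · intro h
        exact absurd (Finset.mem_univ l) h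

open Classical in
lemma diag_sumR (f : ι → Fac) (r D T : ℝ) (hr1 : 1 < r) (hr : ∀ l, (f l).r = r ∨ (f l).r = 1)
    (p : ℕ) (hp : p.Prime) (hpT : r * Real.log p ≤ D * Real.log T) :
    ∑ z ∈ (TU f D T).filter (fun z => kk f z = 1 ∧ NN f z = p), co f z =
      bq f r p * (((p : ℝ) ^ (-(1 / 2) : ℝ) : ℝ) : ℂ) := by
  rw [diag_setR f r D T hr1 hr p hp hpT, Finset.sum_image]
  · unfold bq
    rw [Finset.sum_mul, Finset.sum_filter]
    refine Finset.sum_congr rfl fun l _ => ?_
    have hp0 : (p : ℂ) ≠ 0 := by exact_mod_cast hp.pos.ne'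
    split_ifs with h
    · rw [co_update, mul_assoc]
      congr 1
      have h1 : (-(1 / 2 + (f l).τ * I) : ℂ) = -((f l).τ * I) + ((-(1 / 2) : ℝ) : ℂ) := by
        push_cast
        ring
      rw [h1, Complex.cpow_add _ _ hp0]
      congr 1
      rw [Complex.ofReal_cpow (by positivity)]
      simp
    · simp
  · intro l hl l' hl' h
    by_contra hne
    have h1 := congrFun h l
    simp only at h1
    rw [Function.update_self, Function.update_of_ne hne] at h1
    exact hp.one_lt.ne' h1

open Classical in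
/-- the coefficients of the test polynomial -/
noncomputable def rq (f : ι → Fac) (r : ℝ) (X p : ℕ) : ℂ :=
  if p ∈ (Finset.Ico X (2 * X)).filter Nat.Prime then
    bq f r p * (((p : ℝ) ^ (-(1 / 2) : ℝ) : ℝ) : ℂ) / (Fintype.card ι + 1 : ℝ) else 0

lemma norm_rq_le (f : ι → Fac) (r : ℝ) (X p : ℕ) (hX : 1 ≤ X) :
    ‖rq f r X p‖ ≤ (X : ℝ) ^ (-(1 / 2) : ℝ) := by
  have hX0 : (0 : ℝ) < X := by exact_mod_cast hX
  unfold rq
  split_ifs with h
  · rw [Finset.mem_filter, Finset.mem_Ico] at h
    have hp : 0 < p := h.2.pos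
    have h1 := norm_bq_le f r p hp
    have h2 : (p : ℝ) ^ (-(1 / 2) : ℝ) ≤ (X : ℝ) ^ (-(1 / 2) : ℝ) :=
      Real.rpow_le_rpow_of_nonpos hX0 (by exact_mod_cast h.1.1) (by norm_num)
    have hL : (0 : ℝ) < (Fintype.card ι : ℝ) + 1 := by positivity
    rw [norm_div, norm_mul, Complex.norm_real, Complex.norm_real, Real.norm_eq_abs,
      Real.norm_eq_abs, abs_of_pos hL, abs_of_nonneg (by positivity), div_le_iff₀ hL]
    calc ‖bq f r p‖ * (p : ℝ) ^ (-(1 / 2) : ℝ)
        ≤ ((Fintype.card ι : ℝ) + 1) * (X : ℝ) ^ (-(1 / 2) : ℝ) := by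
          gcongr
          linarith
      _ = _ := mul_comm _ _
  · rw [norm_zero]
    positivity

/-- the diagonal contribution of one prime -/
lemma diag_termR (f : ι → Fac) (r : ℝ) (hr1 : 1 < r) (hr : ∀ l, (f l).r = r ∨ (f l).r = 1)
    (D T H W β : ℝ) (hW : 0 < W) (X : ℕ) (hX : 1 ≤ X) (p : ℕ)
    (hp : p ∈ (Finset.Ico X (2 * X)).filter Nat.Prime)
    (hpT : r * Real.log p ≤ D * Real.log T) :
    ∃ m : ℝ, Real.exp (-(β ^ 2 * (r * Real.log 2) ^ 2 / 4)) / (Fintype.card ι + 1) *
        (16 / 35 * W) * (‖bq f r p‖ ^ 2 / p) ≤ m ∧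
      ∑ z ∈ (TU f D T).filter (fun z => kk f z = 1 ∧ NN f z = p),
        (starRingEnd ℂ) (co f z) *
          ((Real.exp (-(β ^ 2 * (lam f z - r * Real.log X) ^ 2 / 4)) : ℝ) : ℂ) * rq f r X p *
          II H W (lam f z - r * Real.log p) = (m : ℂ) := by
  classical
  have hp' := hp
  rw [Finset.mem_filter, Finset.mem_Ico] at hp
  have hprime := hp.2
  have hX0 : (0 : ℝ) < X := by exact_mod_cast hX
  have hp0 : (0 : ℝ) < p := by exact_mod_cast hprime.pos
  set g : ℝ := Real.exp (-(β ^ 2 * (r * Real.log p - r * Real.log X) ^ 2 / 4)) with hg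
  have hL : (0 : ℝ) < (Fintype.card ι : ℝ) + 1 := by positivity
  refine ⟨g / (Fintype.card ι + 1) * (16 / 35 * W) * (‖bq f r p‖ ^ 2 / p), ?_, ?_⟩
  · have h1 : Real.log X ≤ Real.log p := Real.log_le_log hX0 (by exact_mod_cast hp.1.1)
    have h2 : Real.log p ≤ Real.log 2 + Real.log X := by
      rw [← Real.log_mul two_ne_zero hX0.ne']
      refine Real.log_le_log hp0 ?_
      exact_mod_cast hp.1.2.le
    have h3 : (r * Real.log p - r * Real.log X) ^ 2 ≤ (r * Real.log 2) ^ 2 := by
      have h31 : r * Real.log p - r * Real.log X = r * (Real.log p - Real.log X) := by ring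
      rw [h31]
      exact pow_le_pow_left₀ (mul_nonneg (by linarith) (by linarith))
        (mul_le_mul_of_nonneg_left (by linarith) (by linarith)) 2
    have h4 : Real.exp (-(β ^ 2 * (r * Real.log 2) ^ 2 / 4)) ≤ g := by
      rw [hg, Real.exp_le_exp]
      have : β ^ 2 * (r * Real.log p - r * Real.log X) ^ 2 ≤ β ^ 2 * (r * Real.log 2) ^ 2 := by
        gcongr
      linarith
    gcongr
  · have h5 : ∀ z ∈ (TU f D T).filter (fun z => kk f z = 1 ∧ NN f z = p),
        (starRingEnd ℂ) (co f z) *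
          ((Real.exp (-(β ^ 2 * (lam f z - r * Real.log X) ^ 2 / 4)) : ℝ) : ℂ) * rq f r X p *
          II H W (lam f z - r * Real.log p) =
        (starRingEnd ℂ) (co f z) * ((g : ℂ) * rq f r X p * ((16 / 35 * W : ℝ) : ℂ)) := by
      intro z hz
      rw [Finset.mem_filter] at hz
      have hlam : lam f z = r * Real.log p := by
        rw [lam_eq hr (TU_pos hz.1), hz.2.1, hz.2.2]
        simp
      rw [hlam, sub_self, II_zero H W hW, ← hg]
      ring
    rw [Finset.sum_congr rfl h5, ← Finset.sum_mul, ← map_sum,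
      diag_sumR f r D T hr1 hr p hprime hpT, map_mul, Complex.conj_ofReal]
    unfold rq
    rw [if_pos hp']
    have h6 : (p : ℝ) ^ (-(1 / 2) : ℝ) * (p : ℝ) ^ (-(1 / 2) : ℝ) = 1 / p := by
      rw [← Real.rpow_add hp0]
      norm_num
      rw [Real.rpow_neg_one]
    have h7 : (starRingEnd ℂ) (bq f r p) * bq f r p = ((‖bq f r p‖ ^ 2 : ℝ) : ℂ) := by
      rw [mul_comm, Complex.mul_conj, Complex.normSq_eq_norm_sq]
    have h8 : (((p : ℝ) ^ (-(1 / 2) : ℝ) : ℝ) : ℂ) * (((p : ℝ) ^ (-(1 / 2) : ℝ) : ℝ) : ℂ) =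
        ((1 / p : ℝ) : ℂ) := by
      rw [← Complex.ofReal_mul, h6]
    calc _ = ((starRingEnd ℂ) (bq f r p) * bq f r p) * ((((p : ℝ) ^ (-(1 / 2) : ℝ) : ℝ) : ℂ) *
          (((p : ℝ) ^ (-(1 / 2) : ℝ) : ℝ) : ℂ)) * ((g : ℂ) / ((Fintype.card ι + 1 : ℝ) : ℂ) *
          ((16 / 35 * W : ℝ) : ℂ)) := by ring
      _ = _ := by
        rw [h7, h8]
        push_cast
        ring

end Pool.Agent.H90.EX
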