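import Pool.Agent.H98.EX.PTargets

/-!
# The tilted law of the charges (module EGP)
-/

set_option autoImplicit false

open MeasureTheory ProbabilityTheory Filter Topology
open Pool.Agent.H98.EX
open Pool.Agent.H55.CG (Mo)

namespace Pool.Agent.H90.EX

/-- the exponential moments of the tilted law -/
theorem mo_tilted (ν : Measure ℝ) (a v : ℝ) :
    Mo (ν.tilted fun t => a * t) v = Mo ν (a + v) / Mo ν a := by
  have h := integral_exp_tilted (μ := ν) (fun t : ℝ => a * t) (fun t : ℝ => v * t)
  have h2 : (fun x : ℝ => Real.exp (((fun t : ℝ => a * t) + fun t : ℝ => v * t) x)) =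
      fun x : ℝ => Real.exp ((a + v) * x) := by
    funext x
    simp only [Pi.add_apply]
    congr 1
    ring
  rw [h2] at h
  exact h

/-- the exponential moments are positive -/
theorem mo_pos (ν : Measure ℝ) [IsProbabilityMeasure ν]
    (he : ∀ t : ℝ, Integrable (fun z => Real.exp (t * z)) ν) (a : ℝ) : 0 < Mo ν a :=
  integral_exp_pos (he a)

theorem pf_EGP : T_EGP := by
  intro ν k ϑ ε τ U θ hG hU hθ hτ
  have := hG.prob
  have hθ' := abs_le.mp hθ
  have hp : ∀ a, 0 < Mo ν a := mo_pos ν hG.exp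
  have ha : |θ / 2| ≤ U := by
    rw [abs_le]; constructor <;> linarith [hθ'.1, hθ'.2]
  have hl := hG.lo (θ / 2) ha
  have hu := hG.up (θ / 2) ha
  have hpk : 0 < Mo ν (θ / 2) ^ k := pow_pos (hp _) k
  refine ⟨isProbabilityMeasure_tilted (hG.exp (θ / 2)), ?_, ?_, ?_⟩
  · intro t
    rw [integrable_tilted_iff (hG.exp (θ / 2))]
    refine (hG.exp (θ / 2 + t)).congr (Eventually.of_forall fun x => ?_)
    simp only [smul_eq_mul]
    rw [← Real.exp_add]
    congr 1
    ring
  · intro v hv
    have hv' := abs_le.mp hv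
    have hav : |θ / 2 + v| ≤ U := by
      rw [abs_le]; constructor <;> linarith [hθ'.1, hθ'.2, hv'.1, hv'.2]
    have hl2 := hG.lo (θ / 2 + v) hav
    rw [mo_tilted, div_pow, le_div_iff₀ hpk]
    refine le_trans (mul_le_mul_of_nonneg_left hu (Real.exp_pos _).le) ?_
    refine le_trans (le_of_eq ?_) hl2
    rw [← Real.exp_add]
    congr 1
    ring
  · intro v hv
    have hv' := abs_le.mp hv
    have hav : |θ / 2 + v| ≤ U := by
      rw [abs_le]; constructor <;> linarith [hθ'.1, hθ'.2, hv'.1, hv'.2]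
    have hu2 := hG.up (θ / 2 + v) hav
    rw [mo_tilted, div_pow, div_le_iff₀ hpk]
    refine le_trans hu2 (le_trans (le_of_eq ?_)
      (mul_le_mul_of_nonneg_left hl (Real.exp_pos _).le))
    rw [← Real.exp_add]
    congr 1
    ring

end Pool.Agent.H90.EX
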